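import Pool.Agent.W175.GF.Stm

set_option autoImplicit false

/-!
GF-LT: the local theorem `S_LT` from `S_TG` and `S_RG`.
-/

namespace Pool.Agent.W712.GF

open Complex Pool.Agent.W175.GF

lemma U_inv {r : ℝ} (hr : r < 1) {s : ℂ} (hs : s ∈ U r) : 1 ≤ ‖s‖⁻¹ := by
  have h1 : 0 < ‖s‖ := hs.1
  have h2 : ‖s‖ < 1 := lt_trans hs.2 hr
  exact (one_le_inv₀ h1).2 h2.le

lemma pow_le_exp (D : ℕ) (ε : ℝ) (hε : 0 < ε) :
    ∃ C : ℝ, 0 ≤ C ∧ ∀ x : ℝ, 0 ≤ x → x ^ D ≤ C * Real.exp (ε * x) := by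
  refine ⟨(D.factorial : ℝ) / ε ^ D, by positivity, ?_⟩
  intro x hx
  have h := Real.pow_div_factorial_le_exp (ε * x) (by positivity) D
  have hf : (0 : ℝ) < D.factorial := by exact_mod_cast D.factorial_pos
  rw [div_le_iff₀ hf, mul_pow] at h
  rw [div_mul_eq_mul_div, le_div_iff₀ (by positivity)]
  linarith

lemma slow_of_mer {m : ℕ} (hm : 1 ≤ m) {r : ℝ} (hr : r < 1) {f : ℂ → ℂ} (hf : Mer r f) :
    Slow m r f := by
  obtain ⟨hd, D, C, hC⟩ := hf
  refine ⟨hd, fun ε hε => ?_⟩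
  obtain ⟨C', hC'0, hC'⟩ := pow_le_exp D ε hε
  refine ⟨|C| * C', fun s hs => ?_⟩
  have hx := U_inv hr hs
  have h1 : ‖s‖⁻¹ ^ D ≤ C' * Real.exp (ε * ‖s‖⁻¹) := hC' _ (by positivity)
  have h2 : ‖s‖⁻¹ ≤ ‖s‖⁻¹ ^ m := le_self_pow₀ hx (by omega)
  have h3 : Real.exp (ε * ‖s‖⁻¹) ≤ Real.exp (ε * ‖s‖⁻¹ ^ m) :=
    Real.exp_le_exp.2 (mul_le_mul_of_nonneg_left h2 hε.le)
  calc ‖f s‖ ≤ C * ‖s‖⁻¹ ^ D := hC s hs
    _ ≤ |C| * ‖s‖⁻¹ ^ D := mul_le_mul_of_nonneg_right (le_abs_self C) (by positivity)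
    _ ≤ |C| * (C' * Real.exp (ε * ‖s‖⁻¹)) := mul_le_mul_of_nonneg_left h1 (abs_nonneg _)
    _ ≤ |C| * (C' * Real.exp (ε * ‖s‖⁻¹ ^ m)) :=
        mul_le_mul_of_nonneg_left (mul_le_mul_of_nonneg_left h3 hC'0) (abs_nonneg _)
    _ = |C| * C' * Real.exp (ε * ‖s‖⁻¹ ^ m) := by ring

lemma slow_mul {m : ℕ} {r : ℝ} {f g : ℂ → ℂ} (hf : Slow m r f) (hg : Slow m r g) :
    Slow m r (fun s => f s * g s) := by
  refine ⟨hf.1.mul hg.1, fun ε hε => ?_⟩
  obtain ⟨C1, h1⟩ := hf.2 (ε / 2) (by positivity)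
  obtain ⟨C2, h2⟩ := hg.2 (ε / 2) (by positivity)
  refine ⟨|C1| * |C2|, fun s hs => ?_⟩
  have h1' := (h1 s hs).trans (mul_le_mul_of_nonneg_right (le_abs_self C1) (Real.exp_nonneg _))
  have h2' := (h2 s hs).trans (mul_le_mul_of_nonneg_right (le_abs_self C2) (Real.exp_nonneg _))
  have h3 : Real.exp (ε * ‖s‖⁻¹ ^ m) =
      Real.exp (ε / 2 * ‖s‖⁻¹ ^ m) * Real.exp (ε / 2 * ‖s‖⁻¹ ^ m) := by
    rw [← Real.exp_add]; congr 1; ring
  rw [norm_mul, h3]
  calc ‖f s‖ * ‖g s‖ ≤ (|C1| * Real.exp (ε / 2 * ‖s‖⁻¹ ^ m)) *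
        (|C2| * Real.exp (ε / 2 * ‖s‖⁻¹ ^ m)) :=
        mul_le_mul h1' h2' (norm_nonneg _) (by positivity)
    _ = _ := by ring

lemma slow_one {m : ℕ} {r : ℝ} : Slow m r (fun _ => 1) := by
  refine ⟨differentiableOn_const _, fun ε hε => ⟨1, fun s _ => ?_⟩⟩
  rw [norm_one, one_mul]
  exact Real.one_le_exp (by positivity)

lemma slow_zero {m : ℕ} {r : ℝ} : Slow m r (fun _ => 0) := by
  refine ⟨differentiableOn_const _, fun ε hε => ⟨0, fun s _ => ?_⟩⟩
  simp

lemma slow_add {m : ℕ} {r : ℝ} {f g : ℂ → ℂ} (hf : Slow m r f) (hg : Slow m r g) :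
    Slow m r (fun s => f s + g s) := by
  refine ⟨hf.1.add hg.1, fun ε hε => ?_⟩
  obtain ⟨C1, h1⟩ := hf.2 ε hε
  obtain ⟨C2, h2⟩ := hg.2 ε hε
  refine ⟨C1 + C2, fun s hs => ?_⟩
  calc ‖f s + g s‖ ≤ ‖f s‖ + ‖g s‖ := norm_add_le _ _
    _ ≤ C1 * Real.exp (ε * ‖s‖⁻¹ ^ m) + C2 * Real.exp (ε * ‖s‖⁻¹ ^ m) :=
        add_le_add (h1 s hs) (h2 s hs)
    _ = _ := by ring

lemma slow_pow {m : ℕ} {r : ℝ} {f : ℂ → ℂ} (hf : Slow m r f) (k : ℕ) :
    Slow m r (fun s => f s ^ k) := by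
  induction k with
  | zero => simpa using slow_one
  | succ k ih =>
    have := slow_mul ih hf
    simpa [pow_succ] using this

lemma slow_prod {m : ℕ} {r : ℝ} {ι : Type} (T : Finset ι) (f : ι → ℂ → ℂ)
    (hf : ∀ i ∈ T, Slow m r (f i)) : Slow m r (fun s => ∏ i ∈ T, f i s) := by
  classical
  induction T using Finset.induction_on with
  | empty => simpa using slow_one
  | insert a T ha ih =>
    have h1 := hf a (Finset.mem_insert_self _ _)
    have h2 := ih (fun i hi => hf i (Finset.mem_insert_of_mem hi))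
    have h3 := slow_mul h1 h2
    simpa [Finset.prod_insert ha] using h3

lemma slow_sum {m : ℕ} {r : ℝ} {ι : Type} (T : Finset ι) (f : ι → ℂ → ℂ)
    (hf : ∀ i ∈ T, Slow m r (f i)) : Slow m r (fun s => ∑ i ∈ T, f i s) := by
  classical
  induction T using Finset.induction_on with
  | empty => simpa using slow_zero
  | insert a T ha ih =>
    have h1 := hf a (Finset.mem_insert_self _ _)
    have h2 := ih (fun i hi => hf i (Finset.mem_insert_of_mem hi))
    have h3 := slow_add h1 h2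
    simpa [Finset.sum_insert ha] using h3

lemma ep_of_slow {m : ℕ} {r : ℝ} {f : ℂ → ℂ} (hf : Slow m r f) : EP m r f := by
  refine ⟨{0}, fun _ => f, fun ω _ => hf, fun s _ => ?_⟩
  simp

/-- elementary growth estimate -/
lemma growth (C K : ℝ) (hC : 0 ≤ C) (hK : 0 ≤ K) (m : ℕ) (hm : 1 ≤ m) (ε : ℝ) (hε : 0 < ε) :
    ∃ A : ℝ, ∀ x w : ℝ, 1 ≤ x → 0 ≤ w → w ≤ K * x ^ (m - 1) →
      C * w * Real.log (w + 2) ≤ ε * x ^ m + A := by
  -- δ so small that C K m δ ≤ ε / 2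
  set δ : ℝ := ε / (2 * (C * K * m + 1)) with hδ
  have hδ0 : 0 < δ := by positivity
  have hδ1 : C * K * m * δ ≤ ε / 2 := by
    rw [hδ, mul_div_assoc', div_le_div_iff₀ (by positivity) (by norm_num)]
    nlinarith [mul_nonneg (mul_nonneg hC hK) (Nat.cast_nonneg m : (0:ℝ) ≤ m)]
  set B : ℝ := |Real.log (K + 2)| + m * |Real.log δ| with hB
  have hB0 : 0 ≤ B := by positivity
  set η : ℝ := ε / (2 * (C * K * B + 1)) with hη
  have hη0 : 0 < η := by positivity
  have hη1 : C * K * B * η ≤ ε / 2 := by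
    rw [hη, mul_div_assoc', div_le_div_iff₀ (by positivity) (by norm_num)]
    nlinarith [mul_nonneg (mul_nonneg hC hK) hB0]
  refine ⟨C * K * B * η⁻¹ ^ (m - 1), fun x w hx hw hwx => ?_⟩
  have hx0 : 0 < x := by linarith
  have hxm : 1 ≤ x ^ (m - 1) := one_le_pow₀ hx
  have hl1 : Real.log (w + 2) ≤ Real.log ((K + 2) * x ^ (m - 1)) := by
    apply Real.log_le_log (by linarith)
    nlinarith
  have hl2 : Real.log ((K + 2) * x ^ (m - 1)) = Real.log (K + 2) + ((m - 1 : ℕ) : ℝ) * Real.log x := by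
    rw [Real.log_mul (by positivity) (by positivity), Real.log_pow]
  have hlx : Real.log x ≤ δ * x + |Real.log δ| := by
    have h1 := Real.log_le_sub_one_of_pos (show 0 < δ * x by positivity)
    rw [Real.log_mul hδ0.ne' hx0.ne'] at h1
    have h2 := neg_abs_le (Real.log δ)
    linarith
  have hlx0 : 0 ≤ Real.log x := Real.log_nonneg hx
  have hm1 : ((m - 1 : ℕ) : ℝ) ≤ m := by exact_mod_cast Nat.sub_le m 1
  have hl3 : Real.log (w + 2) ≤ B + m * δ * x := by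
    have h4 : ((m - 1 : ℕ) : ℝ) * Real.log x ≤ m * (δ * x + |Real.log δ|) :=
      mul_le_mul hm1 hlx hlx0 (Nat.cast_nonneg m)
    have h5 := le_abs_self (Real.log (K + 2))
    rw [hl2] at hl1
    rw [hB]
    linarith
  have hlw0 : 0 ≤ Real.log (w + 2) := Real.log_nonneg (by linarith)
  have h6 : C * w * Real.log (w + 2) ≤ C * (K * x ^ (m - 1)) * (B + m * δ * x) := by
    apply mul_le_mul (mul_le_mul_of_nonneg_left hwx hC) hl3 hlw0 (by positivity)
  have hxx : x ^ (m - 1) * x = x ^ m := by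
    rw [← pow_succ]; congr 1; omega
  have h7 : x ^ (m - 1) ≤ η * x ^ m + η⁻¹ ^ (m - 1) := by
    rcases le_total (η⁻¹) x with h | h
    · have : 1 ≤ η * x := by
        have := mul_le_mul_of_nonneg_left h hη0.le
        rwa [mul_inv_cancel₀ hη0.ne'] at this
      have h8 : x ^ (m - 1) * 1 ≤ x ^ (m - 1) * (η * x) :=
        mul_le_mul_of_nonneg_left this (by positivity)
      have h9 : x ^ (m - 1) * (η * x) = η * x ^ m := by rw [← hxx]; ring
      have h10 : (0:ℝ) ≤ η⁻¹ ^ (m - 1) := by positivity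
      linarith
    · have h8 : x ^ (m - 1) ≤ η⁻¹ ^ (m - 1) := pow_le_pow_left₀ hx0.le h _
      have h10 : (0:ℝ) ≤ η * x ^ m := by positivity
      linarith
  have h8 : C * (K * x ^ (m - 1)) * (B + m * δ * x) =
      C * K * B * x ^ (m - 1) + (C * K * m * δ) * x ^ m := by rw [← hxx]; ring
  have h9 : C * K * B * x ^ (m - 1) ≤ C * K * B * (η * x ^ m + η⁻¹ ^ (m - 1)) :=
    mul_le_mul_of_nonneg_left h7 (by positivity)
  have h10 : (C * K * m * δ) * x ^ m ≤ ε / 2 * x ^ m :=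
    mul_le_mul_of_nonneg_right hδ1 (by positivity)
  have h11 : (C * K * B * η) * x ^ m ≤ ε / 2 * x ^ m :=
    mul_le_mul_of_nonneg_right hη1 (by positivity)
  nlinarith

lemma slow_rg (h2 : S_RG) {m : ℕ} (hm : 1 ≤ m) {r : ℝ} (hr : r < 1) {z : ℂ → ℂ}
    (hz : DifferentiableOn ℂ z (U r)) (K : ℝ) (hK : ∀ s ∈ U r, ‖z s‖ ≤ K * ‖s‖⁻¹ ^ (m - 1)) :
    Slow m r (fun s => (Gamma (z s))⁻¹) := by
  obtain ⟨C, hC⟩ := h2
  refine ⟨?_, fun ε hε => ?_⟩
  · have := differentiable_one_div_Gamma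
    exact this.comp_differentiableOn hz
  · obtain ⟨A, hA⟩ := growth |C| |K| (abs_nonneg _) (abs_nonneg _) m hm ε hε
    refine ⟨|C| * Real.exp A, fun s hs => ?_⟩
    have hx := U_inv hr hs
    have hw : ‖z s‖ ≤ |K| * ‖s‖⁻¹ ^ (m - 1) :=
      (hK s hs).trans (mul_le_mul_of_nonneg_right (le_abs_self K) (by positivity))
    have h3 := hA (‖s‖⁻¹) ‖z s‖ hx (norm_nonneg _) hw
    have hlog : 0 ≤ Real.log (‖z s‖ + 2) := Real.log_nonneg (by linarith [norm_nonneg (z s)])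
    have h4 : C * ‖z s‖ * Real.log (‖z s‖ + 2) ≤ |C| * ‖z s‖ * Real.log (‖z s‖ + 2) :=
      mul_le_mul_of_nonneg_right (mul_le_mul_of_nonneg_right (le_abs_self C) (norm_nonneg _)) hlog
    calc ‖(Gamma (z s))⁻¹‖ ≤ C * Real.exp (C * ‖z s‖ * Real.log (‖z s‖ + 2)) := hC _
      _ ≤ |C| * Real.exp (C * ‖z s‖ * Real.log (‖z s‖ + 2)) :=
          mul_le_mul_of_nonneg_right (le_abs_self C) (Real.exp_nonneg _)
      _ ≤ |C| * Real.exp (ε * ‖s‖⁻¹ ^ m + A) :=
          mul_le_mul_of_nonneg_left (Real.exp_le_exp.2 (h4.trans h3)) (abs_nonneg _)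
      _ = |C| * Real.exp A * Real.exp (ε * ‖s‖⁻¹ ^ m) := by rw [Real.exp_add]; ring

lemma ne_zero_of_U {r : ℝ} {s : ℂ} (hs : s ∈ U r) : s ≠ 0 := by
  intro h
  have := hs.1
  rw [h, norm_zero] at this
  exact lt_irrefl _ this

lemma diff_inv_pow {r : ℝ} (a : ℂ) (m : ℕ) :
    DifferentiableOn ℂ (fun s : ℂ => a * s⁻¹ ^ m) (U r) := by
  apply DifferentiableOn.const_mul
  apply DifferentiableOn.pow
  exact differentiableOn_id.inv (fun s hs => ne_zero_of_U hs)

lemma lt_aux (h : S_TG) (h2 : S_RG) : ∀ n : ℕ, ∀ (r : ℝ) (ι : Type) [Fintype ι],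
    Fintype.card ι = n → ∀ (z : ι → ℂ → ℂ), 0 < r → r < 1 →
  (∀ i, DifferentiableOn ℂ (z i) (U r)) →
  (∀ i, ∃ (m : ℕ) (a : ℂ) (K : ℝ), 1 ≤ m ∧ a ≠ 0 ∧
    ∀ s ∈ U r, ‖z i s - a * s⁻¹ ^ m‖ ≤ K * ‖s‖⁻¹ ^ (m - 1)) →
  (∀ i j, i ≠ j → ∀ p q : ℚ, ¬ ∀ s ∈ U r, z i s = p * z j s + q) →
  ∀ (N : Finset (ι → ℕ)) (c : (ι → ℕ) → ℂ → ℂ), (∀ k ∈ N, Mer r (c k)) →
  (∀ s ∈ U r, ∑ k ∈ N, c k s * ∏ i, (Gamma (z i s))⁻¹ ^ k i = 0) →
  ∀ k ∈ N, ∀ s ∈ U r, c k s = 0 := by
  classical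
  intro n
  induction n using Nat.strong_induction_on with
  | _ n ih =>
  intro r ι _ hcard z hr0 hr1 hz hpole hind N c hc hrel
  rcases isEmpty_or_nonempty ι with hι | hι
  · intro k hk s hs
    have hN : N = {k} := by
      ext k'
      simp only [Finset.mem_singleton]
      constructor
      · intro _; exact Subsingleton.elim _ _
      · intro h'; rw [h']; exact hk
    have := hrel s hs
    rw [hN] at this
    simpa using this
  · choose m a K hm ha hK using hpole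
    obtain ⟨i0, hi0⟩ := Finite.exists_max m
    set M := m i0 with hM
    have hM1 : 1 ≤ M := hm i0
    -- the two restrictions
    let res : (ι → ℕ) → ({i : ι // m i = M} → ℕ) := fun k t => k t.1
    let rec' : (ι → ℕ) → ({i : ι // ¬ m i = M} → ℕ) := fun k t => k t.1
    let glue : ({i : ι // m i = M} → ℕ) → ({i : ι // ¬ m i = M} → ℕ) → (ι → ℕ) :=
      fun κ k' i => if hi : m i = M then κ ⟨i, hi⟩ else k' ⟨i, hi⟩
    have hglue : ∀ k : ι → ℕ, glue (res k) (rec' k) = k := by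
      intro k; funext i
      simp only [glue, res, rec']
      split_ifs <;> rfl
    let CC : ({i : ι // m i = M} → ℕ) → ℂ → ℂ := fun κ s =>
      ∑ k ∈ N.filter (fun k => res k = κ), c k s *
        ∏ i : {i : ι // ¬ m i = M}, (Gamma (z i.1 s))⁻¹ ^ k i.1
    have hCCslow : ∀ κ, Slow M r (CC κ) := by
      intro κ
      apply slow_sum
      intro k hk
      apply slow_mul (slow_of_mer hM1 hr1 (hc k (Finset.mem_filter.1 hk).1))
      apply slow_prod
      intro i _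
      apply slow_pow
      -- growth of z i for m i < M
      have hlt : m i.1 ≤ M - 1 := by
        have h1 := hi0 i.1
        have h2 := i.2
        omega
      apply slow_rg h2 hM1 hr1 (hz i.1) (|K i.1| + ‖a i.1‖)
      intro s hs
      have hx := U_inv hr1 hs
      have h3 : ‖s‖⁻¹ ^ (m i.1 - 1) ≤ ‖s‖⁻¹ ^ (M - 1) := pow_le_pow_right₀ hx (by omega)
      have h4 : ‖s‖⁻¹ ^ (m i.1) ≤ ‖s‖⁻¹ ^ (M - 1) := pow_le_pow_right₀ hx hlt
      calc ‖z i.1 s‖ = ‖(z i.1 s - a i.1 * s⁻¹ ^ m i.1) + a i.1 * s⁻¹ ^ m i.1‖ := by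
            congr 1; ring
        _ ≤ ‖z i.1 s - a i.1 * s⁻¹ ^ m i.1‖ + ‖a i.1 * s⁻¹ ^ m i.1‖ := norm_add_le _ _
        _ ≤ K i.1 * ‖s‖⁻¹ ^ (m i.1 - 1) + ‖a i.1‖ * ‖s‖⁻¹ ^ m i.1 := by
            apply add_le_add (hK i.1 s hs)
            rw [norm_mul, norm_pow, norm_inv]
        _ ≤ |K i.1| * ‖s‖⁻¹ ^ (M - 1) + ‖a i.1‖ * ‖s‖⁻¹ ^ (M - 1) := by
            apply add_le_add
            · calc K i.1 * ‖s‖⁻¹ ^ (m i.1 - 1) ≤ |K i.1| * ‖s‖⁻¹ ^ (m i.1 - 1) :=
                    mul_le_mul_of_nonneg_right (le_abs_self _) (by positivity)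
                _ ≤ _ := mul_le_mul_of_nonneg_left h3 (abs_nonneg _)
            · exact mul_le_mul_of_nonneg_left h4 (norm_nonneg _)
        _ = (|K i.1| + ‖a i.1‖) * ‖s‖⁻¹ ^ (M - 1) := by ring
    have hCCzero : ∀ κ ∈ N.image res, ∀ s ∈ U r, CC κ s = 0 := by
      have key := h M r {i : ι // m i = M} (fun i => a i.1)
        (fun i s => z i.1 s - a i.1 * s⁻¹ ^ M) (∑ i, |K i|) hM1 hr0 hr1 (fun i => ha i.1)
        (fun i => (hz i.1).sub (diff_inv_pow (a i.1) M)) ?_ ?_ (N.image res) CC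
        (fun κ _ => ep_of_slow (hCCslow κ)) ?_
      · exact key
      · intro i s hs
        have h1 := hK i.1 s hs
        rw [i.2] at h1
        refine h1.trans (mul_le_mul_of_nonneg_right ?_ (by positivity))
        exact (le_abs_self _).trans
          (Finset.single_le_sum (f := fun i => |K i|) (fun i _ => abs_nonneg _)
            (Finset.mem_univ i.1))
      · intro i j hij p q hcon
        apply hind i.1 j.1 (fun h' => hij (Subtype.ext h')) p q
        intro s hs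
        have := hcon s hs
        simpa using this
      · intro s hs
        rw [← hrel s hs]
        rw [← Finset.sum_fiberwise_of_maps_to (s := N) (t := N.image res) (g := res)
          (fun k hk => Finset.mem_image_of_mem res hk)]
        apply Finset.sum_congr rfl
        intro κ hκ
        simp only [CC]
        rw [Finset.sum_mul]
        apply Finset.sum_congr rfl
        intro k hk
        have hk2 : res k = κ := (Finset.mem_filter.1 hk).2
        rw [← Fintype.prod_subtype_mul_prod_subtype (fun i => m i = M)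
          (fun i => (Gamma (z i s))⁻¹ ^ k i)]
        rw [← hk2]
        simp only [res, add_sub_cancel]
        ring
    intro k hk s hs
    have hcard' : Fintype.card {i : ι // ¬ m i = M} < n := by
      rw [← hcard]
      apply Fintype.card_subtype_lt (x := i0)
      simp [hM]
    set κ := res k with hκ
    set N' := (N.filter (fun k => res k = κ)).image rec' with hN'
    have hinj : Set.InjOn rec' (N.filter (fun k => res k = κ) : Finset (ι → ℕ)) := by
      intro k1 hk1 k2 hk2 heq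
      have e1 : res k1 = κ := (Finset.mem_filter.1 (Finset.mem_coe.1 hk1)).2
      have e2 : res k2 = κ := (Finset.mem_filter.1 (Finset.mem_coe.1 hk2)).2
      rw [← hglue k1, ← hglue k2, e1, e2, heq]
    have hfin := ih _ hcard' r {i : ι // ¬ m i = M} rfl (fun i => z i.1) hr0 hr1
      (fun i => hz i.1) (fun i => ⟨m i.1, a i.1, K i.1, hm i.1, ha i.1, hK i.1⟩)
      (fun i j hij p q => hind i.1 j.1 (fun h' => hij (Subtype.ext h')) p q)
      N' (fun k' => c (glue κ k')) ?_ ?_ (rec' k) ?_ s hs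
    · have : glue κ (rec' k) = k := hglue k
      simpa [this] using hfin
    · intro k' hk'
      obtain ⟨k1, hk1, rfl⟩ := Finset.mem_image.1 hk'
      have e1 := Finset.mem_filter.1 hk1
      have : glue κ (rec' k1) = k1 := by rw [← e1.2]; exact hglue k1
      simp only [this]
      exact hc k1 e1.1
    · intro s hs
      rw [hN', Finset.sum_image hinj]
      have h0 := hCCzero κ (Finset.mem_image_of_mem res hk) s hs
      rw [← h0]
      simp only [CC]
      apply Finset.sum_congr rfl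
      intro k1 hk1
      have e1 := Finset.mem_filter.1 hk1
      have : glue κ (rec' k1) = k1 := by rw [← e1.2]; exact hglue k1
      simp only [this]
      rfl
    · exact Finset.mem_image_of_mem rec' (Finset.mem_filter.2 ⟨hk, rfl⟩)

theorem lt (h : S_TG) (h2 : S_RG) : S_LT := by
  intro r ι _ z hr0 hr1 hz hpole hind N c hc hrel
  exact lt_aux h h2 _ r ι rfl z hr0 hr1 hz hpole hind N c hc hrel

end Pool.Agent.W712.GF
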